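import Mathlib
import Pool.Agent.N166.BL.Fin

/-!
# The conjecture of Beilinson and Bloch for products with almost all constant abelian varieties

Let `g i` (`i` in a finite set `I`) be positive integers, `r` an integer smaller than all the `g i`
and `E` a number field.  For a prime power `q` let `S i` be the set of the characteristic
polynomials of Frobenius of the ordinary abelian varieties of dimension `g i` over the field with `q`
elements, or of all abelian varieties of dimension `g i`, or any set in between.  By Weil, Honda and
Tate its elements correspond to the isogeny classes, the first set contains `ordinaryWeilPolys q
(g i)`, and the second one is contained in `weilPolys q (g i)`.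

For all families `f i` in `S i` with the exception of a proportion `O (q ^ (-1 / 6) log q)`, the
constant depending only on `g`, `r` and `E`, the following holds for all `s > 0`, all abelian
varieties `A` over the field `k` with `q ^ s` elements, isogenous to products of powers of abelian
varieties coming from the field with `q` elements with characteristic polynomials `f i`, and **all**
smooth projective varieties `Y` over `k` such that the eigenvalues of Frobenius on the cohomology of
`Y` and their conjugates generate a group of rank at most `r` modulo the group of the numbers with a
power in `E`, and such that homologically trivial self-correspondences of `A × Y` are nilpotent (for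
instance if `Y` is dominated by a product of curves).

Let `K` be a global function field with field of constants `k`, that is, the function field of a
curve over `k`, let `Z` be a smooth projective variety over `K` which is the generic fibre of a
morphism from `Y` to the curve, in general not constant, and let `A_K` be the constant abelian
variety over `K`. **Then the conjectures of Beilinson and Bloch for `A_K × Z` and for `Z` are
equivalent**: there are products `D_a` of divisors on `A_K` such that

* all cycles on `A_K × Z` modulo rational equivalence are sums of the `D_a × z_a` with cycles
  `z_a` on `Z`, in a unique way, homologically trivial if and only if the `z_a` are;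
* the order of vanishing of `L (H^(2 i - 1)(A_K × Z), s)` at `s = i` is the sum of the orders of
  vanishing of the `L (H^(2 (i - deg a) - 1)(Z), s)` at `s = i - deg a`;
* the formula `dim CH^i(X)_0 = ord_{s = i} L (H^(2 i - 1)(X), s)` holds for `X = A_K × Z` and all
  `i ≤ N` if and only if it holds for `X = Z` and all `i ≤ N`.

For instance, if `Z` is a curve over `K` then the conjecture of Beilinson and Bloch for `A_K × Z`, in
all codimensions, is equivalent to the conjecture of Birch and Swinnerton-Dyer for the Jacobian of
`Z`, that is, to the conjecture of Tate for the surface `Y` (`Y` dominated by a product of curves, of
small Frobenius rank); if `Z` is a nonisotrivial elliptic curve then the ranks can be positive.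

The theorems of the starting files (`AlmostAllAbelianVarieties`, `AllCMTypesConstant`, ...) are
about `A_K` alone. The idea of the proof: by a sieve (helper521) almost all families are such that
each pair `α`, `q / α` of roots can be exchanged by a Galois automorphism which fixes all the other
roots and the elements of `E`. By helper484 it follows that the Chow groups of `A × Y` are generated
by products of intersections of divisors on `A` with the Chow groups of `Y`; by restriction to the
generic fibre the same holds for `A_K × Z`. The Galois group of `K` acts on the cohomology of `A_K`
through the Frobenius endomorphism, so that the L-functions of `A_K × Z` are products of the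
functions `L (H^m(Z), α T)`, where `α` is a product of Frobenius eigenvalues of `A`. The zeros and poles
of the L-functions of `Z` are inverses of Frobenius eigenvalues of `Y` (Grothendieck, Deligne), so
that only the `α` which are powers of `q ^ s` contribute to the order of vanishing at integers, and
by Tate their number is the number of the `D_a`.
-/

set_option autoImplicit false

namespace Pool.Agent.Results.MP_0b9e0b_ag.ConstantAbelianFactors

open Polynomial Pool.Agent.W521.Descent Pool.Agent.W521.Count Pool.Agent.W484.TB
  Pool.Agent.N166.BL

/-- `weilPolys q g` is the set of monic integral polynomials of degree `2 g` with constant term
`q ^ g` and all roots of absolute value `√q`; `ordinaryWeilPolys q g` is the subset of those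
whose coefficient of index `g` is prime to `q`. -/
theorem result {I : Type} [Fintype I] (g : I → ℕ) (r : ℕ) (hr : ∀ i, r < g i)
    (E : IntermediateField ℚ ℂ) [FiniteDimensional ℚ E] :
    ∃ C : ℝ, ∀ q : ℕ, IsPrimePow q → ∀ S : I → Set ℤ[X],
      (∀ i, ordinaryWeilPolys q (g i) ⊆ S i ∧ S i ⊆ weilPolys q (g i)) →
      (∀ i, (S i).Finite ∧ (S i).Nonempty) ∧
      ({f : I → ℤ[X] | (∀ i, f i ∈ S i) ∧ ¬ BlochForRankOver E q r f}.ncard : ℝ) ≤
        C * (Real.log q * (q : ℝ) ^ (-(1 / 6) : ℝ)) * ∏ i, ((S i).ncard : ℝ) :=
  count_of_goodU (splitPrimes E) (dense_splitPrimes E) g
    (fun i => (Nat.zero_le r).trans_lt (hr i)) (fun q f => BlochForRankOver E q r f)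
    fun _ hq x hx => blochForRankOver_of_good g E hq.one_lt r hr x hx

end Pool.Agent.Results.MP_0b9e0b_ag.ConstantAbelianFactors
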