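import Pool.Agent.N876.UV.Crit

/-!
# Orders of L-functions over function fields, for products of cyclic coverings branched along moving
# hyperplanes with arbitrary varieties, over all finite extensions

Let `K` be a global function field of characteristic `c` (or any finitely generated field of
characteristic `c`), with field of constants `κ`, `q = c ^ f` its number of elements, and let
`X_1, …, X_r` be smooth projective models over `K` of cyclic coverings

  `w ^ N_i = ∏ l_{i,k} (x) ^ a_{i,k}`

of the projective spaces of dimension `n_i`, branched along hyperplanes `l_{i,k} = 0`; the coefficients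
of the linear forms are **arbitrary elements of `K`** (the family is in general not isotrivial), the
exponents are prime to `N_i`, and `N_i` divides `q - 1`. Let `Y` be an **arbitrary** smooth projective
variety over `K`, of dimension `D`.

For an integer `j` let `weight X j` be the sum of the fractional parts of `j a_k / N`, replaced by its
mean over `j, c j, …, c ^ (f - 1) j`. Let `e ≥ 0`. The condition `IsSmall X c f N (D + e) I` says: for
all `j_i` not divisible by `N_i` (`i ∈ I`) there is a `u` prime to `N` (a common multiple of the `N_i`)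
with `∑_{i ∈ I} weight X_i (u j_i) + (D + e) / 2 < ∑_{i ∈ I} (n_i / 2 + 1)`.

**Theorem.** Assume this for all nonempty sets `I` of indices. Let `L` be **any** finitely generated
extension of `K` (for instance any finite extension) and `S` a smooth model of `L` over `κ` over which
all the data have good reduction. Then for all `n` and all integers `w` with `2 w ≤ n + e`, the order of
`L (H ^ n (X_1 × ⋯ × X_r × Y), s)` (Euler product over the closed points of `S`) at `s = w`, and at all
points `s` with `q ^ (s - w)` a root of unity, is

  `∑_k ord_{s = w - a_k} L (H ^ (n - 2 a_k) (Y), s)`,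

the sum being over the products of the (algebraic) classes of the `X_i` which are invariant under the
covering groups, `a_k` the codimension. In particular, if `Y` is a point and `n` is odd, then the
order is **zero**. For every single set `I` with the condition the L-functions of the parts of
`H ^ n` on which exactly the covering groups of the `X_i`, `i ∈ I`, act nontrivially have neither zeros
nor poles at these points.

* `L` a global function field and `e = 1`: the central points `s = w`, `n = 2 w - 1`. For example:
  let `N` be a prime number, `c ≡ 1 mod N`, `n` odd, `∑ a_k < N (n + 1) / 2`. Then for **all**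
  function fields `K` of characteristic `c`, **all** `X` over `K` as above of dimension `n` and **all**
  finite extensions `L` of `K`, `ord_{s = (n + 1) / 2} L (H ^ n (X_L), s) = 0`. The condition holds
  for example for the coverings `w ^ N = l_1 ⋯ l_N` of the space of dimension three. Since the rank
  of the image of the `ℓ`-adic Abel-Jacobi map on `CH ^ i (X_L)_0`, `2 i = n + 1`, is at most the
  order at the centre, these maps are zero up to torsion for all `L`, and the conjecture of Beilinson
  and Bloch for `X_L` says that `CH ^ i (X_L)_0 = 0` for all `L`.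
* With `Y`: under the condition with `D + 1` the orders at the centre are the same for
  `X_1 × ⋯ × X_r × Y` and for (the sum of the twists of) `Y`, over all finite extensions of `K`: the
  conjecture of Beilinson and Bloch, for cycles modulo the kernels of the Abel-Jacobi maps, holds for
  the product if and only if it holds for `Y`. For one `X` with `∑ a_k = N` as above the
  condition is `dim Y < dim X - 1`.
* Products of three superelliptic curves `y ^ N_i = ∏ (x - t_{i,k}) ^ a_{i,k}`, `N_i` different primes,
  `c ≡ 1 mod N_i`, `∑_k a_{i,k} = N_i`, `t_{i,k} ∈ K`: the triple product L-function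
  `L (H ^ 1 (C_1) ⊗ H ^ 1 (C_2) ⊗ H ^ 1 (C_3), s)` does not vanish at the centre `s = 2`, over all finite
  extensions of `K` (take `I` the set of the three indices and `e = 1`).
* `L` of any transcendence degree `d`, `e = 2 d`: all integral points.

The proof: by the estimates of Stickelberger type for sums over hyperplane arrangements, for each
character of the covering groups there is an embedding of the algebraic numbers in an algebraic
closure of the `c`-adic numbers such that the Frobenius eigenvalues of this part of the cohomology at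
**all** closed points have large valuation. So the Euler product of this part converges at
`T = q ^ (-w)` for the `c`-adic absolute value, and it is congruent to `1`. Since it is a rational
function (Grothendieck), it has neither a zero nor a pole there.

The facts of algebraic geometry which are used are hypotheses: the trace formula, Künneth's formula
(in the definition of `total`), integrality of the Frobenius eigenvalues of `Y` and their divisibility
in degrees larger than the dimension (Deligne), and the rationality of the L-functions of the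
isotypic parts (Grothendieck).

helper876; built on the library of the starting files (estimates of sums over hyperplane
arrangements by Gauss sums: helper528 and helpers 800, 883, 135, 563, 271, 540, 400, 999, 782, 605, 346).
-/

set_option autoImplicit false

open Finset Polynomial

namespace Pool.Agent.Results.MP_0b9e0b_ag.ExtremeSlopes

/-- The closed points of a scheme of finite type over the finite field `κ`, their degrees and
residue fields. -/
structure Base (κ : Type) [Field κ] : Type 1 where
  P : Type
  deg : P → ℕ
  res : P → Type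
  [field : ∀ v, Field (res v)]
  [fintype : ∀ v, Fintype (res v)]
  [algebra : ∀ v, Algebra κ (res v)]
  finrank_res : ∀ v, Module.finrank κ (res v) = deg v

attribute [instance] Base.field Base.fintype Base.algebra

/-- A family over the base of cyclic coverings `w ^ N = ∏ l_k (x) ^ a_k` of the projective space of
dimension `n`, branched along hyperplanes with coefficients varying with the point, together with the
cohomology of the fibres `X_v` (of smooth models): classes of algebraic cycles `k : K` of codimension
`codim k` (the invariants of the covering group), and, for `e : J v`, the eigenvalues `eig v e` of the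
Frobenius on the part of `H ^ n (X_v)` without invariants, a generator of the covering group
having the eigenvalue `exp (2 π i / N) ^ (exp v e)`. -/
structure Covering {κ : Type} [Field κ] (S : Base κ) : Type 1 where
  N : ℕ
  n : ℕ
  s : ℕ
  a : Fin s → ℕ
  z : κ
  l : ∀ v, Fin s → Fin (n + 1) → S.res v
  K : Type
  [fintypeK : Fintype K]
  codim : K → ℕ
  J : S.P → Type
  [fintypeJ : ∀ v, Fintype (J v)]
  eig : ∀ v, J v → ℂ
  exp : ∀ v, J v → ℕ

attribute [instance] Covering.fintypeK Covering.fintypeJ

/-- A smooth projective family over the base: for `e : J v` the eigenvalues `eig v e` of the Frobenius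
on the cohomology of the fibre `Y_v`, and the degree `deg v e` of the cohomology group. -/
structure Variety {κ : Type} [Field κ] (S : Base κ) : Type 1 where
  J : S.P → Type
  [fintypeJ : ∀ v, Fintype (J v)]
  deg : ∀ v, J v → ℕ
  eig : ∀ v, J v → ℂ

attribute [instance] Variety.fintypeJ

section defs

variable {κ : Type} [Field κ] {S : Base κ}

/-- The value of the form `∏ l_k ^ a_k` of the fibre at `v` at a vector with coordinates in `L`. -/
def Covering.value (X : Covering S) (v : S.P) (L : Type) [Field L] [Algebra (S.res v) L]
    (x : Fin (X.n + 1) → L) : L :=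
  ∏ k, (∑ t, algebraMap (S.res v) L (X.l v k t) * x t) ^ X.a k

/-- The number of vectors over `L` where the form is not zero. -/
noncomputable def Covering.openCount (X : Covering S) (v : S.P) (L : Type) [Field L]
    [Algebra (S.res v) L] : ℕ :=
  Set.ncard {x : Fin (X.n + 1) → L | X.value v L x ≠ 0}

/-- The number of vectors over `L` where the form is not zero and its power with the exponent
`(|L| - 1) / N` is `z ^ i`. -/
noncomputable def Covering.fixCount (X : Covering S) (v : S.P) (L : Type) [Field L]
    [Fintype L] [Algebra (S.res v) L] (i : ℕ) : ℕ :=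
  Set.ncard {x : Fin (X.n + 1) → L | X.value v L x ≠ 0 ∧
    (X.value v L x) ^ ((Fintype.card L - 1) / X.N) =
      algebraMap (S.res v) L (algebraMap κ (S.res v) X.z) ^ i}

/-- `z` has order `N ≥ 2`, the exponents are prime to `N` and their sum is divisible by `N`; the
nontrivial part of the cohomology has no invariants; and the trace formula of Grothendieck and
Lefschetz holds for the powers of the Frobenius composed with elements of the covering group. -/
structure Covering.IsAdmissible (X : Covering S) : Prop where
  two_le : 2 ≤ X.N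
  root : IsPrimitiveRoot X.z X.N
  coprime : ∀ k, (X.a k).Coprime X.N
  dvd : X.N ∣ ∑ k, X.a k
  exp_ne : ∀ v e, ¬ X.N ∣ X.exp v e
  lefschetz : ∀ (v : S.P) (L : Type) [Field L] [Fintype L] [Algebra (S.res v) L] (i : ℕ),
    ((Fintype.card L : ℂ) - 1) * ((-1) ^ X.n * ∑ e, X.eig v e ^ Module.finrank (S.res v) L *
        Complex.exp (2 * Real.pi * Complex.I / X.N) ^ (X.exp v e * i)) =
      (X.N : ℂ) * (X.fixCount v L i : ℂ) - (X.openCount v L : ℂ)

/-- The fibres have dimension (at most) `D`: the Frobenius eigenvalues in degree `l` are algebraic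
integers, divisible by the power `l - D` of the number of elements of the residue field if `l > D`. -/
def Variety.IsOfDimension (Y : Variety S) (D : ℕ) : Prop :=
  ∀ v e, IsIntegral ℤ (Y.eig v e / (Fintype.card (S.res v) : ℂ) ^ (Y.deg v e - D))

/-- The point. -/
def Variety.point (S : Base κ) : Variety S where
  J _ := Unit
  deg _ _ := 0
  eig _ _ := 1

variable {ι : Type} [Fintype ι] [DecidableEq ι] (X : ι → Covering S) (Y : Variety S)

/-- The set of the Frobenius eigenvalues of the fibre at `v` of the product of the `X_i` and `Y`. -/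
abbrev Index (v : S.P) : Type := (∀ i, (X i).K ⊕ (X i).J v) × Y.J v

/-- The degree of the cohomology group to which an eigenvalue belongs (Künneth formula). -/
def degree {v : S.P} (E : Index X Y v) : ℕ :=
  ∑ i, Sum.elim (fun k => 2 * (X i).codim k) (fun _ => (X i).n) (E.1 i) + Y.deg v E.2

/-- The Frobenius eigenvalue. -/
noncomputable def eigenvalue {v : S.P} (E : Index X Y v) : ℂ :=
  (∏ i, Sum.elim (fun k => (Fintype.card (S.res v) : ℂ) ^ (X i).codim k) ((X i).eig v) (E.1 i)) *
    Y.eig v E.2

/-- The exponent for the covering group of `X_i`. -/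
def exponent {v : S.P} (i : ι) (E : Index X Y v) : ℕ :=
  Sum.elim (fun _ => 0) ((X i).exp v) (E.1 i)

open Classical in
/-- The product of the factors `1 - b T ^ d`, `b = b e`, over the `e` with the property `p`. -/
noncomputable def factor {J : Type} [Fintype J] (p : J → Prop) (b : J → ℂ) (d : ℕ) : ℂ[X] :=
  ∏ e ∈ univ.filter p, (1 - C (b e) * Polynomial.X ^ d)

/-- The polynomial `det (1 - T ^ deg v Frob | H ^ n)` of the product of the `X_i` and `Y`. -/
noncomputable def total (n : ℕ) (v : S.P) : ℂ[X] :=
  factor (fun E : Index X Y v => degree X Y E = n) (eigenvalue X Y) (S.deg v)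

/-- The part of this polynomial which belongs to the character `j` of the product of the covering
groups. -/
noncomputable def part (n : ℕ) (j : ι → ℕ) (v : S.P) : ℂ[X] :=
  factor (fun E : Index X Y v => degree X Y E = n ∧ ∀ i, exponent X Y i E ≡ j i [MOD (X i).N])
    (eigenvalue X Y) (S.deg v)

/-- The polynomial `det (1 - T ^ deg v Frob | H ^ m (Y_v))`. -/
noncomputable def Variety.factors (m : ℕ) (v : S.P) : ℂ[X] :=
  factor (fun e => Y.deg v e = m) (Y.eig v) (S.deg v)

end defs

/-- `L` is the product of the inverses of the polynomials `p v`. -/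
def IsEulerProduct {P : Type} (p : P → ℂ[X]) (L : PowerSeries ℂ) : Prop :=
  ∀ n : ℕ, ∃ s : Finset P, ∀ s' : Finset P, s ⊆ s' →
    (PowerSeries.X : PowerSeries ℂ) ^ n ∣ L * ∏ v ∈ s', (p v : PowerSeries ℂ) - 1

/-- The product of the inverses of the polynomials `p v` is a rational function. -/
def IsRational {P : Type} (p : P → ℂ[X]) : Prop :=
  ∃ (L : PowerSeries ℂ) (A B : ℂ[X]), IsEulerProduct p L ∧ A ≠ 0 ∧ B ≠ 0 ∧
    (B : PowerSeries ℂ) * L = A

/-- The product of the inverses of the polynomials `p v` is a rational function, of order `o`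
at `T = t`. -/
def OrderAt {P : Type} (p : P → ℂ[X]) (t : ℂ) (o : ℤ) : Prop :=
  ∃ L : PowerSeries ℂ, IsEulerProduct p L ∧ ∃ A B : ℂ[X], A ≠ 0 ∧ B ≠ 0 ∧
    (B : PowerSeries ℂ) * L = A ∧ (A.rootMultiplicity t : ℤ) - B.rootMultiplicity t = o

/-- The mean over `j, c j, …, c ^ (f - 1) j` of the sum of the fractional parts of `j a_k / N`. -/
def Covering.weight {κ : Type} [Field κ] {S : Base κ} (X : Covering S) (c f j : ℕ) : ℚ :=
  (∑ k, ∑ t ∈ range f, (((j * X.a k * c ^ t) % X.N : ℕ) : ℚ)) / (f * X.N)

/-- The condition on the exponents, for a set `I` of factors. -/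
def IsSmall {κ : Type} [Field κ] {S : Base κ} {ι : Type} (X : ι → Covering S) (c f N δ : ℕ)
    (I : Finset ι) : Prop :=
  ∀ j : ι → ℕ, (∀ i ∈ I, ¬ (X i).N ∣ j i) → ∃ u : ℕ, u.Coprime N ∧
    ∑ i ∈ I, (X i).weight c f (u * j i) + (δ : ℚ) / 2 < ∑ i ∈ I, (((X i).n : ℚ) / 2 + 1)

/-- **Orders of the L-functions.** -/
theorem result (c : ℕ) [Fact c.Prime] (κ : Type) [Field κ] [Fintype κ] [CharP κ c] (f : ℕ)
    (hf : Fintype.card κ = c ^ f) (S : Base κ) {ι : Type} [Fintype ι] [DecidableEq ι]
    (X : ι → Covering S) (hX : ∀ i, (X i).IsAdmissible) (N : ℕ) (hN : 0 < N)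
    (hdvd : ∀ i, (X i).N ∣ N) (e : ℕ) (ζ : ℂ) (hζ : ∃ m, 0 < m ∧ ζ ^ m = 1) :
    -- the isotypic parts
    (∀ (Y : Variety S) (D : ℕ), Y.IsOfDimension D → ∀ I, IsSmall X c f N (D + e) I →
      ∀ n w, 2 * w ≤ n + e → ∀ j : ι → ℕ, (∀ i, (X i).N ∣ j i ↔ i ∉ I) →
        IsRational (part X Y n j) → OrderAt (part X Y n j) (ζ / (Fintype.card κ : ℂ) ^ w) 0) ∧
    -- the products
    (∀ (Y : Variety S) (D : ℕ), Y.IsOfDimension D →
      (∀ I : Finset ι, I.Nonempty → IsSmall X c f N (D + e) I) → ∀ n w, 2 * w ≤ n + e →
        (∀ j, (∃ i, ¬ (X i).N ∣ j i) → IsRational (part X Y n j)) →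
        ∀ o : (∀ i, (X i).K) → ℤ,
          (∀ k, 2 * ∑ i, (X i).codim (k i) ≤ n →
            OrderAt (Y.factors (n - 2 * ∑ i, (X i).codim (k i)))
              ((Fintype.card κ : ℂ) ^ (∑ i, (X i).codim (k i)) *
                (ζ / (Fintype.card κ : ℂ) ^ w)) (o k)) →
          OrderAt (total X Y n) (ζ / (Fintype.card κ : ℂ) ^ w)
            (∑ k with 2 * ∑ i, (X i).codim (k i) ≤ n, o k)) ∧
    -- odd cohomology groups of the product of the `X i`
    ((∀ I : Finset ι, I.Nonempty → IsSmall X c f N e I) → ∀ n w, Odd n → 2 * w ≤ n + e →
      (∀ j, (∃ i, ¬ (X i).N ∣ j i) → IsRational (part X (Variety.point S) n j)) →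
        OrderAt (total X (Variety.point S) n) (ζ / (Fintype.card κ : ℂ) ^ w) 0) ∧
    -- different prime degrees
    ((∀ i, ((X i).N).Prime) → (∀ i i', i ≠ i' → (X i).N ≠ (X i').N) →
      ∀ (I : Finset ι) (v : ι → ℕ) (δ : ℕ), (∀ i ∈ I, ¬ (X i).N ∣ v i) →
        ∑ i ∈ I, (X i).weight c f (v i) + (δ : ℚ) / 2 < ∑ i ∈ I, (((X i).n : ℚ) / 2 + 1) →
        IsSmall X c f (∏ i, (X i).N) δ I) ∧
    -- `c ≡ 1`
    (∀ i, c % (X i).N = 1 → (X i).weight c f 1 ≤ ((∑ k, (X i).a k : ℕ) : ℚ) / (X i).N) := by
  have hf0 : 0 < f := by
    rcases Nat.eq_zero_or_pos f with h | h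
    · rw [h, pow_zero] at hf
      have := Fintype.one_lt_card (α := κ)
      omega
    · exact h
  obtain ⟨m, hm, hζm⟩ := hζ
  have hcard : ∀ v, Fintype.card (S.res v) = Fintype.card κ ^ S.deg v := by
    intro v
    rw [← S.finrank_res v]
    have : Module.Finite κ (S.res v) := .of_finite
    exact Module.card_eq_pow_finrank
  have hpart : ∀ (Y : Variety S) (n : ℕ) (j : ι → ℕ), part X Y n j =
      Pool.Agent.N876.UV.prt S.deg (fun v => Fintype.card (S.res v)) (fun i => (X i).n)
        (fun i => (X i).N) (fun i => (X i).codim) (fun i => (X i).eig) (fun i => (X i).exp) Y.deg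
        Y.eig n j := fun Y n j => rfl
  have htot : ∀ (Y : Variety S) (n : ℕ), total X Y n =
      Pool.Agent.N876.UV.tot S.deg (fun v => Fintype.card (S.res v)) (fun i => (X i).n)
        (fun i => (X i).codim) (fun i => (X i).eig) Y.deg Y.eig n := fun Y n => rfl
  have h1 : ∀ (Y : Variety S) (D : ℕ), Y.IsOfDimension D → ∀ I, IsSmall X c f N (D + e) I →
      ∀ n w, 2 * w ≤ n + e → ∀ j : ι → ℕ, (∀ i, (X i).N ∣ j i ↔ i ∉ I) →
        IsRational (part X Y n j) → OrderAt (part X Y n j) (ζ / (Fintype.card κ : ℂ) ^ w) 0 := by
    intro Y D hY I hI n w hw j hj hrat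
    have hsmall : Pool.Agent.N876.UV.SmallI c f N (D + e) (fun i => (X i).N) (fun i => (X i).n)
        (fun i => (X i).s) (fun i => (X i).a) I := by
      intro j hj
      obtain ⟨u, hu, hlt⟩ := hI j hj
      refine ⟨u, hu, Pool.Agent.N876.UV.weight_conv' hf0 hN hdvd I
        (fun i => ∑ k, ∑ t ∈ range f, (u * j i * (X i).a k * c ^ t) % (X i).N) ?_⟩
      refine lt_of_le_of_lt (le_of_eq ?_) hlt
      congr 1
      refine sum_congr rfl fun i _ => ?_
      unfold Covering.weight
      push_cast
      rfl
    exact Pool.Agent.N876.UV.part_order hf hN (fun i => (hX i).two_le) hdvd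
      (fun i => (hX i).coprime) (fun i => (hX i).root) S.finrank_res (fun i v => (X i).l v)
      (fun i => (hX i).exp_ne) (fun i v L _ _ _ t => (hX i).lefschetz v L t)
      hY rfl hsmall hj hw hm hζm hrat
  have h2 : ∀ (Y : Variety S) (D : ℕ), Y.IsOfDimension D →
      (∀ I : Finset ι, I.Nonempty → IsSmall X c f N (D + e) I) → ∀ n w, 2 * w ≤ n + e →
        (∀ j, (∃ i, ¬ (X i).N ∣ j i) → IsRational (part X Y n j)) →
        ∀ o : (∀ i, (X i).K) → ℤ,
          (∀ k, 2 * ∑ i, (X i).codim (k i) ≤ n →
            OrderAt (Y.factors (n - 2 * ∑ i, (X i).codim (k i)))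
              ((Fintype.card κ : ℂ) ^ (∑ i, (X i).codim (k i)) *
                (ζ / (Fintype.card κ : ℂ) ^ w)) (o k)) →
          OrderAt (total X Y n) (ζ / (Fintype.card κ : ℂ) ^ w)
            (∑ k with 2 * ∑ i, (X i).codim (k i) ≤ n, o k) := by
    intro Y D hY hI n w hw hrat o ho
    have h3 := Pool.Agent.N876.UV.tot_order (dg := S.deg) (Q := fun v => Fintype.card (S.res v))
      (n := fun i => (X i).n) (d := fun i => (X i).N) (codim := fun i => (X i).codim)
      (α := fun i => (X i).eig) (ε := fun i => (X i).exp) (dY := Y.deg) (β := Y.eig)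
      (q := Fintype.card κ) (nn := n) (t := ζ / (Fintype.card κ : ℂ) ^ w) (o := o)
      Fintype.card_ne_zero hcard (fun i => by have := (hX i).two_le; omega)
      (fun i => (hX i).exp_ne) (by
        rintro j ⟨i0, hi0⟩
        exact h1 Y D hY (univ.filter fun i => ¬ (X i).N ∣ j i)
          (hI _ ⟨i0, mem_filter.2 ⟨mem_univ _, hi0⟩⟩) n w hw j (by
            intro i
            rw [mem_filter, not_and, not_not]
            exact ⟨fun h _ => h, fun h => h (mem_univ _)⟩) (hrat j ⟨i0, hi0⟩)) ho
    have h4 : (∑ k with 2 * ∑ i, (X i).codim (k i) ≤ n, o k) =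
        ∑ k ∈ Pool.Agent.N876.UV.fs (fun k : ∀ i, (X i).K => 2 * ∑ i, (X i).codim (k i) ≤ n),
          o k := by
      refine sum_congr ?_ fun _ _ => rfl
      ext k
      rw [mem_filter]
      exact ⟨fun h => (Pool.Agent.N876.UV.mem_fs (p := fun k : ∀ i, (X i).K =>
        2 * ∑ i, (X i).codim (k i) ≤ n)).2 h.2, fun h => ⟨mem_univ _,
        (Pool.Agent.N876.UV.mem_fs (p := fun k : ∀ i, (X i).K =>
          2 * ∑ i, (X i).codim (k i) ≤ n)).1 h⟩⟩
    rw [h4]
    exact h3
  refine ⟨h1, h2, ?_, ?_, ?_⟩
  · intro hI n w hn hw hrat
    have h3 := h2 (Variety.point S) 0 (by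
      intro v e
      show IsIntegral ℤ ((1 : ℂ) / (Fintype.card (S.res v) : ℂ) ^ (0 - 0))
      rw [Nat.sub_self, pow_zero, div_one]
      exact isIntegral_one) (by rwa [zero_add]) n w hw hrat (fun _ => 0) (by
      intro k hk
      have h4 : (Variety.point S).factors (n - 2 * ∑ i, (X i).codim (k i)) = fun _ => 1 := by
        funext v
        unfold Variety.factors factor
        refine prod_eq_one fun e he => ?_
        exfalso
        have h5 : 0 = n - 2 * ∑ i, (X i).codim (k i) := (Pool.Agent.N876.UV.mem_fs
          (p := fun e => (Variety.point S).deg v e = n - 2 * ∑ i, (X i).codim (k i))).1 he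
        obtain ⟨r, hr⟩ := hn
        omega
      rw [h4]
      exact Pool.Agent.N876.UV.orderAt_one _)
    rw [sum_const_zero] at h3
    exact h3
  · intro hp hne I v δ hv hlt j hj
    obtain ⟨u, hu, hu2⟩ := Pool.Agent.N876.UV.exists_unit hp hne hj hv
    refine ⟨u, hu, ?_⟩
    refine lt_of_le_of_lt (le_of_eq ?_) hlt
    congr 1
    refine sum_congr rfl fun i hi => ?_
    unfold Covering.weight
    congr 1
    refine sum_congr rfl fun k _ => sum_congr rfl fun t _ => ?_
    have h3 : u * j i * (X i).a k * c ^ t ≡ v i * (X i).a k * c ^ t [MOD (X i).N] :=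
      ((hu2 i hi).mul_right _).mul_right _
    rw [h3]
  · intro i hc
    have hN2 := (hX i).two_le
    have hN' : (0 : ℚ) < (X i).N := by exact_mod_cast (by omega : 0 < (X i).N)
    have hf' : (0 : ℚ) < f := by exact_mod_cast hf0
    unfold Covering.weight
    rw [div_le_div_iff₀ (by positivity) hN']
    have h3 : ∑ k, ∑ t ∈ range f, (((1 * (X i).a k * c ^ t) % (X i).N : ℕ) : ℚ) ≤
        f * ∑ k, ((X i).a k : ℚ) := by
      rw [mul_sum]
      refine sum_le_sum fun k _ => ?_
      have h2 : ∀ t ∈ range f, (((1 * (X i).a k * c ^ t) % (X i).N : ℕ) : ℚ) ≤ (X i).a k := by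
        intro t _
        have h3 : c ^ t ≡ 1 [MOD (X i).N] := by
          have h4 : c ≡ 1 [MOD (X i).N] := by
            show c % (X i).N = 1 % (X i).N
            rw [hc, Nat.mod_eq_of_lt (by omega)]
          simpa using h4.pow t
        have h5 : 1 * (X i).a k * c ^ t ≡ (X i).a k [MOD (X i).N] := by
          have h6 := h3.mul_left ((X i).a k)
          rw [one_mul]
          rwa [mul_one] at h6
        rw [h5]
        exact_mod_cast Nat.mod_le _ _
      refine (sum_le_sum h2).trans (le_of_eq ?_)
      rw [sum_const, card_range, nsmul_eq_mul]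
    have h4 := mul_le_mul_of_nonneg_right h3 hN'.le
    refine h4.trans (le_of_eq ?_)
    push_cast
    ring

end Pool.Agent.Results.MP_0b9e0b_ag.ExtremeSlopes
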