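import Pool.Agent.N214.HB.Fin

/-!
# The rank formula of Beilinson and Bloch for hypergeometric motives over `F_q(t^(1/d))`

Let `k` be a field with `q` elements, `m` a divisor of `q - 1`, `θ` a character of order `m` of the
multiplicative group of `k`, and let `α i`, `β i` (`i < n`), `η i` (`i < l`, `l` even) be residues
modulo `m` with `∑ α - ∑ β + ∑ η = 0` and `α i ≠ β j` for all `i`, `j`, and `η i ≠ 0`. Let `V_t` be the
variety of dimension `w = 2 n + l - 3`

  `∑ x_i + ∑ y_i + ∑ z_i = 0`, `∏ x_i = t ∏ y_i`

in the torus of the projective space with the coordinates `x`, `y` (`n` each) and `z` (`l`). The function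
`trace` is minus the sum over the points of `V_t` of the values of the character with the exponents
`α`, `-β`, `η`; it is the trace of the Frobenius on the fibre of `M = R^w f_!` of the corresponding
Kummer sheaf. By Katz (Exponential sums and differential equations, 8.4) this is, up to twists by
constants, the hypergeometric sheaf with the parameters `α`, `β`: it is irreducible of rank `n` and pure
of weight `w` outside one point of `G_m`, and the middle extension at this point. So `M` is the
realization of a factor of the motive `h^w` of a smooth projective variety over `k(t)`, which is not
constant and not isotrivial in general. Examples (`l = 0`): the Legendre curve (`α = 1/2, 1/2`,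
`β = 0, 0`), and up to a Tate twist the motives `h^3` of the one-parameter hypergeometric families of
Calabi-Yau threefolds (`n = 4`, `β = 0`, and `α` one of 14 quadruples, with the denominators 2, 3, 4,
5, 6, 8, 10, 12), for instance of the Dwork pencil of quintics (`α = 1/5, 2/5, 3/5, 4/5`).

Let `d` be a divisor of `m` and `K_d = k(t^(1/d))`. Part 1 of the theorem: the sum of the traces over
all points `t = u ^ d` with values in an extension of degree `s` of `k` is `- ∑ γ_j ^ s`, with `d` numbers
`γ_j` (Jacobi sums). So `∏ (1 - γ_j T)` is the `L`-function of `M` over `K_d`, without the Euler factors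
at `0` and `∞`, and `lPoly γ r = ∏ (1 - γ_j ^ r T)` is the one over the extension with the constant field
`F_(q^r)`. The weights of the inertia invariants of `M` at `0` and `∞` are at most `w`, so that the
omitted factors do not vanish at the centre `s = i = (w + 1) / 2 = n + l / 2 - 1`; the multiplicity of
`q ^ (- r i)` as a root of `lPoly γ r` is the order of vanishing of `L(M / K_d F_(q^r), s)` at `s = i`.

Algebraic cycles: `v_i = X_i ^ m` defines a map of the Fermat variety `F` of degree `m` and dimension
`w + 1 = 2 i` to the pencil of the `V_t`; the coordinate divisors of `F` have normal crossings, and after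
blowing up intersections of them (on whose cohomology the characters considered do not occur) `F` is
fibred over the line with the coordinate `t^(1/m)`. The part of `H^(2 i)(F)` that belongs to `M` over
`K_d` is the sum of the lines of the characters `line α β η d j`, `0 ≤ j < d`, with nonzero entries. The
Chow motives of these lines are invertible (Shioda, Katsura, Kimura), so that the Chow group of such a
line in codimension `i`, over `F_(q^r)`, is zero unless `γ_j ^ r = q ^ (i r)`, and it has dimension one if
moreover the line is algebraic. The restriction to the generic fibre is injective on this part, since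
`H^1` of the line with values in `M` is the whole of it, and the cycles on the generic fibre are
homologically trivial, since `M` is the only cohomology. So `dim CH^i(M / K_d F_(q^r))_0` is at least
the number `cycleRank` of the `j` for which `γ_j ^ r = q ^ (i r)` and the line is algebraic, and it is
equal to it if all lines with `γ_j ^ r = q ^ (i r)` are algebraic.

Part 2: if all odd prime factors of `m` are congruent to 3 modulo 4, or if `m` is the product of a
number `m0 ≤ 135` other than 87, 95, 105, 111, 116, 123 and of odd primes dividing `m0` (`SmallDegree`;
for instance if `m ≤ 86`), then for all `r` the order of vanishing is equal to `cycleRank`: all lines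
with `γ_j ^ r = q ^ (i r)` are algebraic. This is the formula of Beilinson and Bloch for `M` over
`K_d F_(q^r)`, for all `q` and all characteristics prime to `m`. For instance it holds for the fourteen
families of Calabi-Yau threefolds over infinitely many of the fields `K_d` each.

Part 3: the same if `m` divides `p ^ f + 1`, `f > 0` (no condition on the prime factors), and then the
rank over `K_d F_(q^2)` is at least `d - 2 n` (if `η i ≠ 0`). So the ranks of the groups of homologically
trivial cycles of codimension `i`, modulo rational equivalence, are unbounded, for every odd weight.

`AlgebraicLine`: the closure of the modular Tate characters (algebraic: `MP_0f183b_ag/FermatModularTate`)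
and of the characters of `CBase` (algebraic: `MP_af4e75_ag/FermatSmallDegrees`), which are the Tate
characters of surfaces and of products of two curves (Tate's theorem on divisors), the standard
characters (Aoki, Shioda), and Hodge characters which are generated by such characters in
characteristic zero (the cycles specialise). The proof of part 2: if a power of the Jacobi sum `γ_j` is
a power of `q` then by the absolute value no entry is zero, and by Stickelberger's theorem
(`Pool/Agent/Y145/DI/Stick.lean`), applied to all conjugates, the character is a Tate character; for
the degrees of the second kind the theorem of `Pool/Agent/N993/CP/Final.lean` applies (library of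
helper993). The relation of Hasse and Davenport is in `Pool/Agent/Y145/DW/HD.lean`.
-/

set_option autoImplicit false

namespace Pool.Agent.Results.MP_0b9e0b_ag.HypergeometricMotives

open Pool.Agent.N214.HB

theorem result (p : ℕ) [Fact p.Prime] (m : ℕ) [NeZero m] (k : Type) [Field k] [Fintype k]
    [CharP k p] (hk : m ∣ Fintype.card k - 1) (θ : MulChar k ℂ) (hθ : orderOf θ = m)
    (n l : ℕ) (hn : 0 < n) (hl : Even l) (α β : Fin n → ZMod m) (η : Fin l → ZMod m)
    (hsum : ∑ i, α i - ∑ i, β i + ∑ i, η i = 0) (hirr : ∀ i j, α i ≠ β j)
    (d : ℕ) (hd0 : 0 < d) (hd : d ∣ m) :
    ∃ γ : Fin d → ℂ,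
      -- 1
      (∀ (E : Type) [Field E] [Fintype E] [DecidableEq E] [Algebra k E],
        ∑ u : Eˣ, trace θ α β η E (u ^ d) = -∑ j, γ j ^ Module.finrank k E) ∧
      -- 2
      ((∀ q : ℕ, q.Prime → q ∣ m → q = 2 ∨ q % 4 = 3) ∨ Pool.Agent.N993.CP.SmallDegree m →
        ∀ r : ℕ, 0 < r → (lPoly γ r).rootMultiplicity ((((Fintype.card k : ℂ) ^ (n + l / 2 - 1)) ^ r)⁻¹)
          = cycleRank p (Fintype.card k) α β η γ (n + l / 2 - 1) r) ∧
      -- 3
      ∀ f : ℕ, 0 < f → m ∣ p ^ f + 1 →
        (∀ r : ℕ, 0 < r →
          (lPoly γ r).rootMultiplicity ((((Fintype.card k : ℂ) ^ (n + l / 2 - 1)) ^ r)⁻¹)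
            = cycleRank p (Fintype.card k) α β η γ (n + l / 2 - 1) r) ∧
        ((∀ i, η i ≠ 0) →
          d ≤ cycleRank p (Fintype.card k) α β η γ (n + l / 2 - 1) 2 + 2 * n) :=
  main_fin hk θ hθ hn hl hsum hirr hd0 hd

end Pool.Agent.Results.MP_0b9e0b_ag.HypergeometricMotives
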