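import Mathlib
import Pool.Agent.N843.TT.Top

/-!
# The Beilinson–Bloch conjecture for intersections of two quadrics over the multiquadratic extensions of
# `ℚ(√-7)`: exact natural densities and infinite towers

`K = ℚ(√-7)`, that is, a number field of degree two with an integer `a` such that `a² = a - 2`. For `D` in
`𝓞 K` let `E_D` be the quadratic twist by `D` of `X_0(49)`. Let `d_1, …, d_n` be squarefree integers of `K`,
congruent to `1` modulo `4` and prime to `√-7`, independent modulo squares, and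
`L = K(√d_1, …, √d_n)`, of degree `2 ^ n` over `K` (`n = 0`: `L = K`). We consider the smooth complete
intersections `X ⊂ P⁵` of two quadrics over `L` which are the base loci of the pencils over `𝓞 L` with the
discriminant curve (up to squares)
`C : y² = (9 + 3 a) D (D D' x² - 1) (D D' x² + a⁴) (D D' x² - a⁸)`
of genus two, `D`, `D'` in `𝓞 K`. The Jacobian `J` of `C` is isogenous to `E_D × E_{D'}`. Here
`CH²(X)_0 ⊗ ℚ = J(L) ⊗ ℚ` (`CH^i(X)_0 ⊗ ℚ = 0` for `i ≠ 2`) and `H³(X)` is `H¹(J)(-1)`: the conjecture for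
`X` over `L` and `i = 2` says that the rank of `E_D(L) × E_{D'}(L)` is the order of `L(H³(X), s)` at `s = 2`.

Let `D` be good over `L` if it is squarefree, `≡ 1 mod 4`, prime to `√-7` and the `d_i`, and the twists
over `K` by all the `2 ^ n` products of `D` with some of the `d_i` have finitely many points over `K` and
no element of order two in `Ш`.
* For all good `D`, `D'` and **all** `X` over `L` as above the conjecture is true and both sides are `0`:
  `E_D(L)` and `E_{D'}(L)` are finite, and `L(H³(X/L), s)`, which is defined by the numbers of points of `X`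
  over all finite extensions of all residue fields of `L`, is entire and not zero at `s = 2`.
* Fixed field, random twist: for every `L` the good `D` have the natural density **exactly**
  `c2 ^ (2 ^ n)`, `c2 = ∏_{i ≥ 1} (1 - 2^(-i)) = 0.288…`, among all squarefree `D ≡ 1 mod 4` prime to `√-7`
  and the `d_i`, ordered by the norm; for `r` multipliers `m` the `D` for which all `m D` are good over `L`
  have the natural density `c2 ^ (r 2 ^ n)`. So this is the proportion of the quadratic twists of the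
  explicit threefold `X` with `C : y² = (9 + 3 a) (x² - 1) (x² + a⁴) (x² - a⁸)` for which
  the conjecture is proved here over `L`.
* Fixed threefold, random field: if `D` is good over `L`, the `e` for which `D` is good over `L(√e)`,
  `[L(√e) : L] = 2`, have the natural density exactly `c2 ^ (2 ^ n)`; the same for several `D` at once. So
  the conjecture is true, with both sides `0`, over all the layers of an infinite tower of fields.

The number of points of the base locus of a pencil of quadrics over a finite field is treated in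
`Pool/Agent/N844/QP` (helper844, see `MP_b8021b_nt/QuadricPencilTowers` for totally real fields), the twists
of `X_0(49)` over `L` in the starting files (`Pool/Agent/R426`, `MP_cd906c_nt/MultiquadraticX49`).
-/

set_option autoImplicit false

namespace Pool.Agent.Results.MP_0b9e0b_ag.QuadricPencilTowersOverK

open Pool.Agent.Results.MP_cd906c_nt.MultiquadraticX49 (curve InClass NoSelmer AllNoSelmer
  Independent c2)
open NumberField IsDedekindDomain Filter Matrix
open scoped LinearAlgebra.Projectivization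

/-! ### The intersections of two quadrics -/

/-- The pencils of quadrics `x A - B` in `P⁵` over `R` with the discriminant
`- det (x A - B) = (9 + 3 w) D m² (D D' x² - 1) (D D' x² + w⁴) (D D' x² - w⁸)`. -/
structure IsPencil {R : Type} [CommRing R] (w D D' m : R) (A B : Matrix (Fin 6) (Fin 6) R) :
    Prop where
  symA : A.IsSymm
  symB : B.IsSymm
  disc : ∀ x : R, -(x • A - B).det = (9 + 3 * w) * D * m ^ 2 * ((D * D' * x ^ 2 - 1) *
    (D * D' * x ^ 2 + w ^ 4) * (D * D' * x ^ 2 - w ^ 8))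

/-- The quadratic form of a matrix. -/
def qf {R : Type*} [CommRing R] {N : ℕ} (M : Matrix (Fin N) (Fin N) R) (y : Fin N → R) : R :=
  y ⬝ᵥ (M *ᵥ y)

/-- The base locus `X` of the pencil is smooth over the field `k` (the Jacobian criterion at the points
over `k`); `k` is a field over `R` by `φ`. -/
def Smooth {R : Type} [CommRing R] (A B : Matrix (Fin 6) (Fin 6) R) {k : Type} [Field k]
    (φ : R →+* k) : Prop :=
  ∀ y : Fin 6 → k, y ≠ 0 → qf (A.map φ) y = 0 → qf (B.map φ) y = 0 →
    LinearIndependent k ![A.map φ *ᵥ y, B.map φ *ᵥ y]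

/-- The number of points over `k` of the base locus `X ⊂ P⁵` of the pencil. -/
noncomputable def numP {R : Type} [CommRing R] (A B : Matrix (Fin 6) (Fin 6) R) {k : Type} [Field k]
    (φ : R →+* k) : ℕ :=
  Nat.card {P : ℙ k (Fin 6 → k) // qf (A.map φ) P.rep = 0 ∧ qf (B.map φ) P.rep = 0}

section field

variable {L : Type} [Field L] [NumberField L]

/-- The number `N(v)` of elements of the residue field. -/
noncomputable def qv (v : HeightOneSpectrum (𝓞 L)) : ℕ := Nat.card (𝓞 L ⧸ v.asIdeal)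

/-- The reduction modulo `v`, to an extension `k` of the residue field. -/
noncomputable def red (v : HeightOneSpectrum (𝓞 L)) (k : Type) [Field k]
    [Algebra (𝓞 L ⧸ v.asIdeal) k] : 𝓞 L →+* k :=
  (algebraMap (𝓞 L ⧸ v.asIdeal) k).comp (Ideal.Quotient.mk v.asIdeal)

/-- `α` are the eigenvalues of Frobenius at `v` on `H³(X)`: the number of points of `X` over every
extension `k` of degree `r` of the residue field is `1 + q^r + q^(2r) + q^(3r) - ∑ α_j^r`, `q = N(v)`. -/
def IsFrob (A B : Matrix (Fin 6) (Fin 6) (𝓞 L)) (v : HeightOneSpectrum (𝓞 L)) (α : Fin 4 → ℂ) :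
    Prop :=
  (∀ j, ‖α j‖ = (qv v : ℝ) ^ ((3 : ℝ) / 2)) ∧
    ∀ (k : Type) [Field k] [Fintype k] [Algebra (𝓞 L ⧸ v.asIdeal) k] (r : ℕ),
      Fintype.card k = qv v ^ r →
      (numP A B (red v k) : ℂ) =
        1 + (qv v : ℂ) ^ r + (qv v : ℂ) ^ (2 * r) + (qv v : ℂ) ^ (3 * r) - ∑ j, α j ^ r

/-- `F` is entire and is, for `Re s > 5/2`, the Euler product of `∏_j (1 - α_j N(v)^(-s))⁻¹` over the
places `v` of `L` not dividing `M`, where `α_j` are the eigenvalues of Frobenius at `v` on `H³(X)`. -/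
def IsL (A B : Matrix (Fin 6) (Fin 6) (𝓞 L)) (M : 𝓞 L) (F : ℂ → ℂ) : Prop :=
  Differentiable ℂ F ∧ ∃ α : HeightOneSpectrum (𝓞 L) → Fin 4 → ℂ,
    (∀ v, M ∉ v.asIdeal → IsFrob A B v (α v)) ∧
    ∀ s : ℂ, (5 : ℝ) / 2 < s.re →
      HasProd (fun v : HeightOneSpectrum (𝓞 L) => open Classical in
        if M ∈ v.asIdeal then 1 else ∏ j, (1 - α v j * (qv v : ℂ) ^ (-s))⁻¹) (F s)

/-- The conjecture over `L` for the intersections of two quadrics of the pair `(D, D')`, with rank and
order zero: `E_D(L)` and `E_{D'}(L)` are finite, the base loci `X` of all the pencils over `𝓞 L` are smooth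
over the fields of characteristic zero and over the fields in which `42 D D' m` is not zero, and the
`L`-function of `H³(X/L)`, without the places dividing `42 D D' m N`, is entire and not zero at `s = 2`. -/
def BeilinsonBloch (w D D' N : 𝓞 L) : Prop :=
  Finite (curve (D : L)).toAffine.Point ∧ Finite (curve (D' : L)).toAffine.Point ∧
    ∀ m : 𝓞 L, m ≠ 0 → ∀ A B : Matrix (Fin 6) (Fin 6) (𝓞 L), IsPencil w D D' m A B →
      (∀ (k : Type) [Field k] [CharZero k] (φ : 𝓞 L →+* k), Smooth A B φ) ∧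
      (∀ (k : Type) [Field k] (φ : 𝓞 L →+* k), φ (42 * (D * D' * m)) ≠ 0 → Smooth A B φ) ∧
      ∃ F : ℂ → ℂ, IsL A B (42 * (D * D' * m) * N) F ∧ F 2 ≠ 0

end field

/-- The conjecture for the pair `(D, D')` over the number fields `L = K(√d_1, …, √d_n)` of degree
`2 ^ n`. -/
def OverExtensions {K : Type} [Field K] [NumberField K] (a : 𝓞 K) {n : ℕ} (d : Fin n → 𝓞 K)
    (D D' : 𝓞 K) : Prop :=
  ∀ (L : Type) [Field L] [NumberField L] [Algebra K L] (x : Fin n → L),
    (∀ i, x i ^ 2 = algebraMap K L (d i)) → IntermediateField.adjoin K (Set.range x) = ⊤ →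
    Module.finrank K L = 2 ^ n ∧
      BeilinsonBloch (algebraMap (𝓞 K) (𝓞 L) a) (algebraMap (𝓞 K) (𝓞 L) D)
        (algebraMap (𝓞 K) (𝓞 L) D') (algebraMap (𝓞 K) (𝓞 L) (∏ i, d i))

/-! ### The densities -/

/-- `D` is good over `L = K(√d_1, …, √d_n)`: it is in the class (squarefree, congruent to `1` modulo `4`,
prime to `√-7`) and prime to the `d_i`, and for all the `N` in the class that are `D` times a product of
some of the `d_i`, up to squares, `E_N(K)` is finite and `Ш(E_N/K)` has no element of order two. -/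
def Good {K : Type} [Field K] [NumberField K] (a : 𝓞 K) {n : ℕ} (d : Fin n → 𝓞 K) (D : 𝓞 K) :
    Prop :=
  InClass a D ∧ (∀ i, IsCoprime D (d i)) ∧ AllNoSelmer a d D

/-- The elements of norm at most `X` of the class that are prime to the `d_i` and to the elements
of `s`. -/
def family {K : Type} [Field K] [NumberField K] (a : 𝓞 K) {n : ℕ} (d : Fin n → 𝓞 K)
    (s : Finset (𝓞 K)) (X : ℕ) : Set (𝓞 K) :=
  {D | Ideal.absNorm (Ideal.span {D}) ≤ X ∧ InClass a D ∧ (∀ i, IsCoprime D (d i)) ∧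
    ∀ m ∈ s, IsCoprime D m}

/-- The natural density of the elements with the property `P` in a family. -/
def HasDensity {K : Type} [Field K] [NumberField K] (F : ℕ → Set (𝓞 K)) (P : 𝓞 K → Prop) (δ : ℝ) :
    Prop :=
  Tendsto (fun X : ℕ => ({D ∈ F X | P D}.ncard : ℝ) / ((F X).ncard : ℝ)) atTop (nhds δ)

/-! ### The example -/

/-- `(9 + 3 w) D² y₀² + D (y₁² + y₂² + y₃²) + D² y₄² - y₅²` -/
def exA {R : Type} [CommRing R] (w D : R) : Matrix (Fin 6) (Fin 6) R :=
  !![(9 + 3 * w) * D ^ 2, 0, 0, 0, 0, 0;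
     0, D, 0, 0, 0, 0;
     0, 0, D, 0, 0, 0;
     0, 0, 0, D, 0, 0;
     0, 0, 0, 0, D ^ 2, 0;
     0, 0, 0, 0, 0, -1]

/-- `(9 + 3 w) D y₀² - y₁² + w⁴ y₂² - w⁴ y₃² + 2 w² y₄ y₅` -/
def exB {R : Type} [CommRing R] (w D : R) : Matrix (Fin 6) (Fin 6) R :=
  !![(9 + 3 * w) * D, 0, 0, 0, 0, 0;
     0, -1, 0, 0, 0, 0;
     0, 0, w ^ 4, 0, 0, 0;
     0, 0, 0, -w ^ 4, 0, 0;
     0, 0, 0, 0, 0, w ^ 2;
     0, 0, 0, 0, w ^ 2, 0]

/-! ### The proof -/

section proof

lemma ex_pencil {R : Type} [CommRing R] (w D : R) : IsPencil w D D 1 (exA w D) (exB w D) where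
  symA := by
    unfold exA
    refine Matrix.ext fun i j => ?_
    fin_cases i <;> fin_cases j <;> rfl
  symB := by
    unfold exB
    refine Matrix.ext fun i j => ?_
    fin_cases i <;> fin_cases j <;> rfl
  disc := by
    intro x
    unfold exA exB
    simp [Matrix.det_succ_row_zero, Fin.sum_univ_succ, Fin.succAbove]
    ring

variable {L : Type} [Field L] [NumberField L]

lemma map_ne {k : Type} [Field k] [CharZero k] (φ : 𝓞 L →+* k) {x : 𝓞 L} (hx : x ≠ 0) :
    φ x ≠ 0 := by
  intro h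
  have h1 : Ideal.absNorm (Ideal.span {x}) ≠ 0 := by
    rw [Ne, Ideal.absNorm_eq_zero_iff, Ideal.span_singleton_eq_bot]
    exact hx
  have h2 : ((Ideal.absNorm (Ideal.span {x}) : ℕ) : 𝓞 L) ∈ Ideal.span {x} := Ideal.absNorm_mem _
  obtain ⟨c, hc⟩ := Ideal.mem_span_singleton.1 h2
  have h3 := congrArg φ hc
  rw [map_natCast, map_mul, h, zero_mul] at h3
  exact h1 (by exact_mod_cast h3)

lemma smooth_of {w D D' m : 𝓞 L} (hw : w ^ 2 = w - 2) {A B : Matrix (Fin 6) (Fin 6) (𝓞 L)}
    (h : IsPencil w D D' m A B) {k : Type} [Field k] (φ : 𝓞 L →+* k)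
    (h0 : φ (42 * (D * D' * m)) ≠ 0) : Smooth A B φ := by
  have n0 : ∀ x : 𝓞 L, x ∣ 42 * (D * D' * m) → φ x ≠ 0 := by
    intro x hx h1
    obtain ⟨c, hc⟩ := hx
    apply h0
    rw [hc, map_mul, h1, zero_mul]
  have k2 : (2 : k) ≠ 0 := by
    have := n0 2 ⟨21 * (D * D' * m), by ring⟩
    rwa [map_ofNat] at this
  have k3 : (3 : k) ≠ 0 := by
    have := n0 3 ⟨14 * (D * D' * m), by ring⟩
    rwa [map_ofNat] at this
  have k7 : (7 : k) ≠ 0 := by
    have := n0 7 ⟨6 * (D * D' * m), by ring⟩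
    rwa [map_ofNat] at this
  have h' : Pool.Agent.N843.TT.IsPencil w D D' m A B := ⟨h.symA, h.symB, h.disc⟩
  intro y hy h6 h7
  exact h'.smooth (Pool.Agent.N843.TT.ok_map φ hw k2 k3 k7) (n0 D ⟨42 * (D' * m), by ring⟩)
    (n0 D' ⟨42 * (D * m), by ring⟩) (n0 m ⟨42 * (D * D'), by ring⟩) hy h6 h7

variable {K : Type} [Field K] [NumberField K] {a : 𝓞 K}

lemma over_of (ha : a ^ 2 = a - 2) (hK : Module.finrank ℚ K = 2) {n : ℕ} {d : Fin n → 𝓞 K}
    (hd : ∀ i, InClass a (d i)) (hind : Independent d) {D D' : 𝓞 K} (hD : Good a d D)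
    (hD' : Good a d D') : OverExtensions a d D D' := by
  intro L _ _ _ x hx hL
  have hw : (algebraMap (𝓞 K) (𝓞 L) a) ^ 2 = algebraMap (𝓞 K) (𝓞 L) a - 2 := by
    rw [← map_pow, ha, map_sub, map_ofNat]
  have hne : ∀ y : 𝓞 K, y ≠ 0 → algebraMap (𝓞 K) (𝓞 L) y ≠ 0 := fun y hy =>
    (map_ne_zero_iff _ (Pool.Agent.N843.TT.algebraMap_inj (K := K) L)).2 hy
  refine ⟨Pool.Agent.N843.TT.degL hd hind L x hx hL,
    (Pool.Agent.N843.TT.curveL ha hK hd hind hD L x hx hL).1,
    (Pool.Agent.N843.TT.curveL ha hK hd hind hD' L x hx hL).1,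
    fun m hm A B h => ⟨fun k _ _ φ => ?_, fun k _ φ h0 => smooth_of hw h φ h0, ?_⟩⟩
  · refine smooth_of hw h φ (map_ne φ ?_)
    exact mul_ne_zero (by norm_num) (mul_ne_zero (mul_ne_zero (hne D hD.1.1.ne_zero)
      (hne D' hD'.1.1.ne_zero)) hm)
  · have h' : Pool.Agent.N843.TT.IsPencil (algebraMap (𝓞 K) (𝓞 L) a) (algebraMap (𝓞 K) (𝓞 L) D)
      (algebraMap (𝓞 K) (𝓞 L) D') m A B := ⟨h.symA, h.symB, h.disc⟩
    obtain ⟨α, h1, F, h2, h3, h4⟩ :=
      Pool.Agent.N843.TT.threefold ha hK hd hind hD hD' L x hx hL hm h'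
    exact ⟨F, ⟨h2, α, h1, h3⟩, h4⟩

end proof

/-- **Main theorem.** The Beilinson–Bloch conjecture for intersections of two quadrics in `P⁵` over
multiquadratic extensions of `ℚ(√-7)`: exact natural densities and infinite towers. -/
theorem result (K : Type) [Field K] [NumberField K] (a : 𝓞 K) (ha : a ^ 2 = a - 2)
    (hK : Module.finrank ℚ K = 2) (n : ℕ) (d : Fin n → 𝓞 K) (hd : ∀ i, InClass a (d i))
    (hind : Independent d) :
    -- the conjecture for good pairs
    (∀ D D' : 𝓞 K, Good a d D → Good a d D' → OverExtensions a d D D') ∧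
    -- the twists in the definition of the good elements exist
    (∀ D : 𝓞 K, InClass a D → (∀ i, IsCoprime D (d i)) → ∀ T : Finset (Fin n),
      ∃ N c : 𝓞 K, InClass a N ∧ c ≠ 0 ∧ D * ∏ i ∈ T, d i = N * c ^ 2) ∧
    -- fixed field, random quadratic twist
    (∀ s : Finset (𝓞 K), s.Nonempty → (∀ m ∈ s, InClass a m ∧ ∀ i, IsCoprime m (d i)) →
      HasDensity (family a d s) (fun D => ∀ m ∈ s, Good a d (m * D)) (c2 ^ (s.card * 2 ^ n)) ∧
      ∃ δ : ℝ, 0 < δ ∧ ∀ᶠ X : ℕ in atTop, δ * X ≤ ((family a d s X).ncard : ℝ)) ∧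
    -- fixed threefolds, random quadratic extension of the field
    (∀ s : Finset (𝓞 K), s.Nonempty → (∀ m ∈ s, Good a d m) →
      HasDensity (family a d s) (fun e => Independent (Fin.snoc d e : Fin (n + 1) → 𝓞 K) ∧
        ∀ m ∈ s, Good a (Fin.snoc d e : Fin (n + 1) → 𝓞 K) m) (c2 ^ (s.card * 2 ^ n))) ∧
    -- infinite towers
    (∀ s : Finset (𝓞 K), s.Nonempty → (∀ m ∈ s, Good a d m) →
      ∃ q : ℕ → 𝓞 K, (∀ j, InClass a (q j)) ∧
        ∀ k, Independent (Fin.append d fun i : Fin k => q i) ∧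
          ∀ m ∈ s, ∀ m' ∈ s, OverExtensions a (Fin.append d fun i : Fin k => q i) m m') ∧
    -- an explicit pencil for every `D`
    (∀ (R : Type) [CommRing R] (w D : R), IsPencil w D D 1 (exA w D) (exB w D)) ∧
    0.288 < c2 ∧ c2 < 0.289 := by
  classical
  obtain ⟨-, -, -, h3, h4⟩ := Pool.Agent.R426.QK.MOM.t_C2
  refine ⟨fun D D' hD hD' => over_of ha hK hd hind hD hD', fun D hD hc T => ?_,
    fun s hs0 hs => ?_, fun s hs0 hs => ?_, fun s hs0 hs => ?_, fun R _ w D => ex_pencil w D, h3, h4⟩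
  · exact Pool.Agent.Results.MP_cd906c_nt.MultiquadraticX49.classes ha hK d hd hind hD hc T
  · exact Pool.Agent.N843.TT.law_twist ha hK hd hind hs0 hs
  · exact Pool.Agent.N843.TT.law_next ha hK hd hind hs0 hs
  · obtain ⟨q, q1, q2⟩ := Pool.Agent.N843.TT.towers ha hK hd hind hs0 hs
    refine ⟨q, q1, fun k => ⟨(q2 k).1, fun m hm m' hm' => ?_⟩⟩
    refine over_of ha hK (fun i => ?_) (q2 k).1 ((q2 k).2 m hm) ((q2 k).2 m' hm')
    refine Fin.addCases (fun j => ?_) (fun j => ?_) i
    · rw [Fin.append_left]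
      exact hd j
    · rw [Fin.append_right]
      exact q1 j

end Pool.Agent.Results.MP_0b9e0b_ag.QuadricPencilTowersOverK
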